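import Mathlib

open Module Module.End

namespace Pool.Agent.LibBT64

variable {K V : Type*} [Field K] [AddCommGroup V] [Module K V] [FiniteDimensional K V]

/-- A Jordan block of size two. -/
theorem exists_jordan [IsAlgClosed K] (f : End K V) (h : ⨆ μ, f.eigenspace μ ≠ ⊤) :
    ∃ (α : K) (v w : V), v ≠ 0 ∧ f v = α • v ∧ f w = α • w + v := by
  by_contra hcon
  push Not at hcon
  apply h
  rw [eq_top_iff, ← f.iSup_maxGenEigenspace_eq_top]
  refine iSup_mono fun μ => ?_
  intro x hx
  rw [mem_maxGenEigenspace] at hx
  obtain ⟨k, hk⟩ := hx
  have h12 : LinearMap.ker ((f - μ • (1 : End K V)) ^ 1) =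
      LinearMap.ker ((f - μ • (1 : End K V)) ^ (1 + 1)) := by
    apply le_antisymm
    · intro y hy
      rw [LinearMap.mem_ker, pow_one] at hy
      rw [LinearMap.mem_ker, pow_succ, pow_one, Module.End.mul_apply, hy, map_zero]
    · intro y hy
      rw [LinearMap.mem_ker, pow_succ, pow_one, Module.End.mul_apply] at hy
      rw [LinearMap.mem_ker, pow_one]
      by_contra hne
      refine hcon μ ((f - μ • (1 : End K V)) y) y hne ?_ ?_
      · have h1 : (f - μ • (1 : End K V)) ((f - μ • (1 : End K V)) y) =
          f ((f - μ • (1 : End K V)) y) - μ • ((f - μ • (1 : End K V)) y) := rfl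
        rw [h1] at hy
        exact sub_eq_zero.1 hy
      · change f y = μ • y + (f y - μ • y)
        abel
  have h2 := ker_pow_constant h12 k
  have h3 : x ∈ LinearMap.ker ((f - μ • (1 : End K V)) ^ (1 + k)) := by
    rw [LinearMap.mem_ker, pow_add, Module.End.mul_apply, hk, map_zero]
  rw [← h2, LinearMap.mem_ker, pow_one] at h3
  rw [mem_eigenspace_iff]
  exact sub_eq_zero.1 h3

theorem two_le (f : End K V) {α : K} {v w : V} (hv : v ≠ 0) (h1 : f v = α • v)
    (h2 : f w = α • w + v) : 2 ≤ finrank K (f.maxGenEigenspace α) := by
  have hli : LinearIndependent K ![v, w] := by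
    rw [LinearIndependent.pair_iff]
    intro a b hab
    have h8 := congrArg (f - α • (1 : End K V)) hab
    have h9 : (f - α • (1 : End K V)) (a • v + b • w) = b • v := by
      change f (a • v + b • w) - α • (a • v + b • w) = b • v
      rw [map_add, map_smul, map_smul, h1, h2]
      module
    rw [h9, map_zero] at h8
    have hb : b = 0 := (smul_eq_zero.1 h8).resolve_right hv
    rw [hb, zero_smul, add_zero] at hab
    exact ⟨(smul_eq_zero.1 hab).resolve_right hv, hb⟩
  have hle : Submodule.span K (Set.range ![v, w]) ≤ f.maxGenEigenspace α := by
    rw [Submodule.span_le]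
    rintro _ ⟨i, rfl⟩
    change _ ∈ f.maxGenEigenspace α
    rw [mem_maxGenEigenspace]
    fin_cases i
    · refine ⟨1, ?_⟩
      rw [pow_one]
      change f v - α • v = 0
      rw [h1, sub_self]
    · refine ⟨2, ?_⟩
      rw [pow_two, Module.End.mul_apply]
      have h8 : (f - α • (1 : End K V)) w = v := by
        change f w - α • w = v
        rw [h2]
        abel
      change (f - α • (1 : End K V)) ((f - α • (1 : End K V)) w) = 0
      rw [h8]
      change f v - α • v = 0
      rw [h1, sub_self]
  have h3 := Submodule.finrank_mono hle
  rwa [finrank_span_eq_card hli, Fintype.card_fin] at h3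

/-- The Jordan blocks of the asymmetry of a nondegenerate bilinear form. -/
theorem bilin [IsAlgClosed K] (f : End K V) (B : V →ₗ[K] V →ₗ[K] K)
    (hB : ∀ x, (∀ y, B x y = 0) → x = 0) {κ : K} (hκ : κ ≠ 0)
    (hf : ∀ x y, B y x = κ * B (f x) y) {α : K} {v w : V} (hv : v ≠ 0) (h1 : f v = α • v)
    (h2 : f w = α • w + v) :
    (∃ β, β ≠ α ∧ κ ^ 2 * α * β = 1 ∧ α ≠ 0 ∧ (∀ y, B v (f y) = β * B v y) ∧
      ∀ y, B w (f y) = β * B w y - β / α * B v y) ∨ κ * α = -1 ∨
      (κ * α = 1 ∧ 3 ≤ finrank K (f.maxGenEigenspace α)) := by
  have hα : α ≠ 0 := by
    rintro rfl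
    apply hv
    apply hB
    intro y
    have e1 := hf y v
    have e2 := hf v (f y)
    rw [h1, zero_smul, map_zero, LinearMap.zero_apply, mul_zero] at e2
    rw [e1, e2, mul_zero]
  have hleft : ∀ y, B v y = κ ^ 2 * α * B v (f y) := by
    intro y
    have e1 := hf y v
    have e2 := hf v (f y)
    rw [h1, map_smul, LinearMap.smul_apply, smul_eq_mul] at e2
    rw [e1, e2]
    ring
  set β := (κ ^ 2 * α)⁻¹ with hβ
  have hκα : κ ^ 2 * α ≠ 0 := mul_ne_zero (pow_ne_zero _ hκ) hα
  have hleft' : ∀ y, B v (f y) = β * B v y := by
    intro y
    rw [hleft y, hβ]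
    field_simp
  have hne : ∃ y, B v y ≠ 0 := by
    by_contra h
    push Not at h
    exact hv (hB v h)
  have hleft2 : ∀ y, B w (f y) = β * B w y - β / α * B v y := by
    intro y
    have e1 := hf y w
    have e2 := hf w (f y)
    rw [h2, map_add, map_smul, LinearMap.add_apply, LinearMap.smul_apply, smul_eq_mul, hleft'] at e2
    have e3 : B w y = κ ^ 2 * (α * B w (f y) + β * B v y) := by
      rw [e1, e2]
      ring
    rw [e3, hβ]
    field_simp
    ring
  by_cases hβα : β = α
  · right
    have h4 : (κ * α - 1) * (κ * α + 1) = 0 := by
      have h5 : κ ^ 2 * α * α = 1 := by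
        conv_lhs => rw [← hβα]
        rw [hβα]
        conv_lhs => rw [show κ ^ 2 * α * α = κ ^ 2 * α * α from rfl]
        rw [← mul_inv_cancel₀ hκα, ← hβ, hβα]
      linear_combination h5
    rcases mul_eq_zero.1 h4 with h5 | h5
    · right
      have h6 : κ * α = 1 := sub_eq_zero.1 h5
      refine ⟨h6, ?_⟩
      by_contra h3
      push Not at h3
      have e1 : B v w = 0 := by
        have := hf w w
        rw [h2, map_add, map_smul, LinearMap.add_apply, LinearMap.smul_apply, smul_eq_mul] at this
        have h7 : κ * B v w = 0 := by linear_combination (-1 : K) * this - B w w * h6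
        exact (mul_eq_zero.1 h7).resolve_left hκ
      have e2 : B w v = 0 := by
        have := hf v w
        rw [h1, map_smul, LinearMap.smul_apply, smul_eq_mul, e1, mul_zero, mul_zero] at this
        exact this
      have e3 : B v v = 0 := by
        have := hf w v
        rw [h2, map_add, map_smul, LinearMap.add_apply, LinearMap.smul_apply, smul_eq_mul, e1, e2,
          mul_zero, zero_add] at this
        exact (mul_eq_zero.1 this.symm).resolve_left hκ
      obtain ⟨y, hy⟩ := hne
      apply hy
      have htop : (⊤ : Submodule K V) ≤ LinearMap.ker (B v) := by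
        rw [← f.iSup_maxGenEigenspace_eq_top]
        refine iSup_le fun γ => ?_
        by_cases hγ : γ = α
        · rw [hγ]
          -- the generalised eigenspace is spanned by `v` and `w`
          have hsp : Submodule.span K (Set.range ![v, w]) = f.maxGenEigenspace α := by
            have hli : LinearIndependent K ![v, w] := by
              rw [LinearIndependent.pair_iff]
              intro a b hab
              have h8 := congrArg (f - α • (1 : End K V)) hab
              have h9 : (f - α • (1 : End K V)) (a • v + b • w) = b • v := by
                change f (a • v + b • w) - α • (a • v + b • w) = b • v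
                rw [map_add, map_smul, map_smul, h1, h2]
                module
              rw [h9, map_zero] at h8
              have hb : b = 0 := (smul_eq_zero.1 h8).resolve_right hv
              rw [hb, zero_smul, add_zero] at hab
              exact ⟨(smul_eq_zero.1 hab).resolve_right hv, hb⟩
            have hle : Submodule.span K (Set.range ![v, w]) ≤ f.maxGenEigenspace α := by
              rw [Submodule.span_le]
              rintro _ ⟨i, rfl⟩
              change _ ∈ f.maxGenEigenspace α
              rw [mem_maxGenEigenspace]
              fin_cases i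
              · refine ⟨1, ?_⟩
                rw [pow_one]
                change f v - α • v = 0
                rw [h1, sub_self]
              · refine ⟨2, ?_⟩
                rw [pow_two, Module.End.mul_apply]
                have h8 : (f - α • (1 : End K V)) w = v := by
                  change f w - α • w = v
                  rw [h2]
                  abel
                change (f - α • (1 : End K V)) ((f - α • (1 : End K V)) w) = 0
                rw [h8]
                change f v - α • v = 0
                rw [h1, sub_self]
            refine Submodule.eq_of_le_of_finrank_le hle ?_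
            rw [finrank_span_eq_card hli, Fintype.card_fin]
            omega
          rw [← hsp, Submodule.span_le]
          rintro _ ⟨i, rfl⟩
          fin_cases i
          · exact e3
          · exact e1
        · intro z hz
          rw [mem_maxGenEigenspace] at hz
          obtain ⟨k, hk⟩ := hz
          rw [LinearMap.mem_ker]
          have h8 : ∀ (k : ℕ) (z : V), B v (((f - γ • (1 : End K V)) ^ k) z) = (α - γ) ^ k * B v z := by
            intro k
            induction k with
            | zero => intro z; simp
            | succ k ih =>
              intro z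
              rw [pow_succ, Module.End.mul_apply, ih]
              have h9 : (f - γ • (1 : End K V)) z = f z - γ • z := rfl
              rw [h9, map_sub, map_smul, hleft', hβα, smul_eq_mul]
              ring
          have h10 := h8 k z
          rw [hk, map_zero] at h10
          exact (mul_eq_zero.1 h10.symm).resolve_left (pow_ne_zero _ (sub_ne_zero.2 (Ne.symm hγ)))
      exact htop (Submodule.mem_top : y ∈ ⊤)
    · left
      linear_combination h5
  · left
    exact ⟨β, hβα, mul_inv_cancel₀ hκα, hα, hleft', hleft2⟩

end Pool.Agent.LibBT64
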