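import Pool.Agent.LibBT64.Main

set_option autoImplicit false

/-!
# Semisimplicity of Frobenius with double eigenvalues (MP_93fb11)

`U` is any scheme over the finite field `F`, `g` a family of invertible functions on `U`, `c` a
function with algebraic integer values on the points of `U` in all extensions of `F` (the trace
function of a self-dual sheaf, for instance a constant sign); the sums of `c` are the power sums of
the `ω a`, up to powers of the number of elements of the field. `F'` is an extension with `Q ^ 2`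
elements, where the prime `ℓ` divides `Q + 1`, and `A` is the Frobenius of `F'` on the part of the
cohomology of a Kummer covering of `U` which belongs to characters `χ` of order a power of `ℓ`.
The form `B` is `B(x, y) = ⟨x, F_Q y⟩`: the Frobenius of the field with `Q` elements interchanges the
parts of `χ` and `χ⁻¹`, which are dual to each other. Its asymmetry is `A`, up to a scalar.
-/

namespace Pool.Agent.Results.MP_93fb11_ag.DoubleEigenvalues

open AlgebraicGeometry CategoryTheory Module Pool.Agent.LibTS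

theorem result {F : Type} [Field F] [Finite F] {U : Scheme.{0}}
    (p : U ⟶ Spec (CommRingCat.of F)) {s : ℕ} (g : Fin s → (Γ(U, ⊤))ˣ)
    (c : ∀ (E : Type) [Field E] [Algebra F E], Pt p E → ℂ)
    (hc : ∀ (E : Type) [Field E] [Algebra F E] (x : Pt p E), IsIntegral ℤ (c E x))
    {M : ℕ} (ω : Fin M → ℂ) (hω : ∀ a, IsIntegral ℤ (ω a))
    {b : ℕ} (ε : Fin b → ℤ) (e : Fin b → ℕ) (θ : Fin b → ℂ) (hθ : ∀ b, IsIntegral ℤ (θ b))
    (h0 : ∀ (E : Type) [Field E] [Finite E] [Algebra F E], ∑ᶠ x : Pt p E, c E x =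
      ∑ a, ω a ^ finrank F E +
        ∑ b, (ε b : ℂ) * ((Nat.card E : ℂ) ^ e b - 1) * θ b ^ finrank F E)
    (ℓ : ℕ) (hℓ : ℓ.Prime) (hℓ2 : ℓ ≠ 2)
    (F' : Type) [Field F'] [Finite F'] [Algebra F F'] (Q : ℕ) (hQ : Nat.card F' = Q ^ 2)
    (hQℓ : ℓ ∣ Q + 1)
    (V : ValuationSubring ℂ) (hV : (ℓ : ℂ) ∈ V.nonunits) (hnu : ∀ a, ω a ∉ V.nonunits)
    (h2 : Nat.card {a // ω a ^ finrank F F' - 1 ∈ V.nonunits} ≤ 3)
    (h2' : Nat.card {a // ω a ^ finrank F F' - 1 ∈ V.nonunits} < ℓ)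
    (h1 : ∀ a b, a ≠ b → ω a ^ finrank F F' - ω b ^ finrank F F' ∈ V.nonunits →
      ω a ^ finrank F F' - 1 ∈ V.nonunits)
    (i : ℕ) (χ : Fin s → MulChar F' ℂ) (hχ : ∀ j, χ j ^ (ℓ ^ i) = 1)
    (A : Matrix (Fin M) (Fin M) ℂ)
    (hA : ∀ (E : Type) [Field E] [Finite E] [Algebra F E] [Algebra F' E] [IsScalarTower F F' E],
      (A ^ finrank F' E).trace = ∑ᶠ x : Pt p E, c E x *
        ∏ j, χ j (Algebra.norm F' (val (g j : Γ(U, ⊤)) x.1)))
    (n : ℕ) (B : (Fin M → ℂ) →ₗ[ℂ] (Fin M → ℂ) →ₗ[ℂ] ℂ)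
    (hB : ∀ x, (∀ y, B x y = 0) → x = 0)
    (hAB : ∀ x y, B y x = (-1) ^ n / (Q : ℂ) ^ n * B (A.mulVec x) y)
    (h3 : A.charpoly.rootMultiplicity ((-1) ^ n * (Q : ℂ) ^ n) ≤ 2) :
    ⨆ μ, End.eigenspace (Matrix.toLin' A) μ = ⊤ :=
  LibBT64.main p g c hc ω hω ε e θ hθ h0 ℓ hℓ hℓ2 F' Q hQ hQℓ V hV hnu h2 h2' h1 i χ hχ A hA n B hB
    hAB h3

end Pool.Agent.Results.MP_93fb11_ag.DoubleEigenvalues
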