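import Pool.Agent.LibBT64.A
import Pool.Agent.LibTS.Core
import Pool.Agent.LibTS.Cyc
import Pool.Agent.LibTS.Defs
import Pool.Agent.LibTS.Main
import Pool.Agent.LibSS99.B

open Polynomial AlgebraicGeometry CategoryTheory Module Module.End Pool.Agent.LibTS

namespace Pool.Agent.LibBT64

/-- The multiplicity of the dual eigenvalue. -/
theorem dual_mult {M : ℕ} (A : Matrix (Fin M) (Fin M) ℂ)
    (B : (Fin M → ℂ) →ₗ[ℂ] (Fin M → ℂ) →ₗ[ℂ] ℂ) (hB : ∀ x, (∀ y, B x y = 0) → x = 0)
    {α β : ℂ} (hα : α ≠ 0) (hβ : β ≠ 0) {v w : Fin M → ℂ} (hv : v ≠ 0)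
    (h1 : ∀ y, B v (A.mulVec y) = β * B v y)
    (h2 : ∀ y, B w (A.mulVec y) = β * B w y - β / α * B v y) :
    2 ≤ A.charpoly.rootMultiplicity β := by
  have key : ∀ (u : Fin M → ℂ) i, (A.transpose.mulVec fun j => B u (Pi.single j 1)) i =
      B u (A.mulVec (Pi.single i 1)) := by
    intro u i
    have e1 : A.mulVec (Pi.single i 1) = ∑ j, A j i • (Pi.single j 1 : Fin M → ℂ) := by
      funext k
      rw [Matrix.mulVec_single_one, Finset.sum_apply]
      simp [Matrix.col, Pi.single_apply]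
    rw [e1, map_sum]
    simp only [map_smul, smul_eq_mul, Matrix.mulVec, dotProduct, Matrix.transpose_apply]
  let b : (Fin M → ℂ) → (Fin M → ℂ) := fun u j => B u (Pi.single j 1)
  have hb : b v ≠ 0 := by
    intro h
    apply hv
    apply hB
    intro y
    have e1 : y = ∑ j, y j • (Pi.single j 1 : Fin M → ℂ) := by
      funext k
      rw [Finset.sum_apply]
      simp [Pi.single_apply]
    rw [e1, map_sum]
    refine Finset.sum_eq_zero fun j _ => ?_
    rw [map_smul, smul_eq_mul]
    have e2 := congrFun h j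
    change B v (Pi.single j 1) = 0 at e2
    rw [e2, mul_zero]
  have e1 : Matrix.toLin' A.transpose (-(β / α) • b v) = β • (-(β / α) • b v) := by
    rw [map_smul]
    have : Matrix.toLin' A.transpose (b v) = β • b v := by
      funext i
      rw [Matrix.toLin'_apply]
      change (A.transpose.mulVec fun j => B v (Pi.single j 1)) i = β * B v (Pi.single i 1)
      rw [key, h1]
    rw [this, smul_comm]
  have e2 : Matrix.toLin' A.transpose (b w) = β • b w + (-(β / α) • b v) := by
    funext i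
    rw [Matrix.toLin'_apply]
    change (A.transpose.mulVec fun j => B w (Pi.single j 1)) i =
      β * B w (Pi.single i 1) + (-(β / α) * B v (Pi.single i 1))
    rw [key, h2]
    ring
  have e3 : (-(β / α)) • b v ≠ 0 := smul_ne_zero (neg_ne_zero.2 (div_ne_zero hβ hα)) hb
  have e4 := two_le _ e3 e1 e2
  rwa [LinearMap.finrank_maxGenEigenspace_eq, Matrix.charpoly_toLin', Matrix.charpoly_transpose] at e4

theorem gg_eq_one {V : ValuationSubring ℂ} {x : ℂ} (hx : x ∈ V) :
    gg V x = 1 ↔ x - 1 ∈ V.nonunits := by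
  have h1 : x - 1 ∈ V := V.toSubring.sub_mem hx V.toSubring.one_mem
  rw [← gg_eq_zero V h1]
  have h2 := gg_add V h1 V.toSubring.one_mem
  rw [sub_add_cancel, gg_one] at h2
  rw [h2, add_eq_right]

theorem gg_eq_gg {V : ValuationSubring ℂ} {x y : ℂ} (hx : x ∈ V) (hy : y ∈ V)
    (h : gg V x = gg V y) : x - y ∈ V.nonunits := by
  have h1 : x - y ∈ V := V.toSubring.sub_mem hx hy
  rw [← gg_eq_zero V h1]
  have h2 := gg_add V h1 hy
  rw [sub_add_cancel, h] at h2
  exact right_eq_add.mp h2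

theorem integral_roots (R : Multiset ℂ)
    (h : ∀ k : ℕ, 0 < k → IsIntegral ℤ (R.map fun r => r ^ k).sum) : ∀ r ∈ R, IsIntegral ℤ r := by
  obtain ⟨L, rfl⟩ : ∃ L : List ℂ, (L : Multiset ℂ) = R := ⟨R.toList, R.coe_toList⟩
  intro r hr
  obtain ⟨i, hi⟩ := List.mem_iff_get.1 (Multiset.mem_coe.1 hr)
  have h1 := LibSS99.integral_of_psum (K := ℂ) (fun j : Fin L.length => L.get j) (fun k hk => by
    have h2 := h k hk
    have h3 : ∑ j : Fin L.length, (L.get j) ^ k = ((L : Multiset ℂ).map fun r => r ^ k).sum := by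
      rw [Multiset.map_coe, Multiset.sum_coe]
      conv_rhs => rw [← List.ofFn_get L]
      rw [List.map_ofFn, List.sum_ofFn]
      rfl
    rw [h3]
    exact h2) i
  rw [← hi]
  exact h1

theorem main {F : Type} [Field F] [Finite F] {U : Scheme.{0}} (p : U ⟶ Spec (CommRingCat.of F))
    {s : ℕ} (g : Fin s → (Γ(U, ⊤))ˣ)
    (c : ∀ (E : Type) [Field E] [Algebra F E], Pt p E → ℂ)
    (hc : ∀ (E : Type) [Field E] [Algebra F E] (x : Pt p E), IsIntegral ℤ (c E x))
    {M : ℕ} (ω : Fin M → ℂ) (hω : ∀ a, IsIntegral ℤ (ω a))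
    {b : ℕ} (ε : Fin b → ℤ) (e : Fin b → ℕ) (θ : Fin b → ℂ) (hθ : ∀ b, IsIntegral ℤ (θ b))
    (h0 : ∀ (E : Type) [Field E] [Finite E] [Algebra F E], ∑ᶠ x : Pt p E, c E x =
      ∑ a, ω a ^ finrank F E +
        ∑ b, (ε b : ℂ) * ((Nat.card E : ℂ) ^ e b - 1) * θ b ^ finrank F E)
    (ℓ : ℕ) (hℓ : ℓ.Prime) (hℓ2 : ℓ ≠ 2)
    (F' : Type) [Field F'] [Finite F'] [Algebra F F'] (Q : ℕ) (hQ : Nat.card F' = Q ^ 2)
    (hQℓ : ℓ ∣ Q + 1)
    (V : ValuationSubring ℂ) (hV : (ℓ : ℂ) ∈ V.nonunits) (hnu : ∀ a, ω a ∉ V.nonunits)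
    (h2 : Nat.card {a // ω a ^ finrank F F' - 1 ∈ V.nonunits} ≤ 3)
    (h2' : Nat.card {a // ω a ^ finrank F F' - 1 ∈ V.nonunits} < ℓ)
    (h1 : ∀ a b, a ≠ b → ω a ^ finrank F F' - ω b ^ finrank F F' ∈ V.nonunits →
      ω a ^ finrank F F' - 1 ∈ V.nonunits)
    (i : ℕ) (χ : Fin s → MulChar F' ℂ) (hχ : ∀ j, χ j ^ (ℓ ^ i) = 1)
    (A : Matrix (Fin M) (Fin M) ℂ)
    (hA : ∀ (E : Type) [Field E] [Finite E] [Algebra F E] [Algebra F' E] [IsScalarTower F F' E],
      (A ^ finrank F' E).trace = ∑ᶠ x : Pt p E, c E x *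
        ∏ j, χ j (Algebra.norm F' (val (g j : Γ(U, ⊤)) x.1)))
    (n : ℕ) (B : (Fin M → ℂ) →ₗ[ℂ] (Fin M → ℂ) →ₗ[ℂ] ℂ)
    (hB : ∀ x, (∀ y, B x y = 0) → x = 0)
    (hAB : ∀ x y, B y x = (-1) ^ n / (Q : ℂ) ^ n * B (A.mulVec x) y)
    (h3 : A.charpoly.rootMultiplicity ((-1) ^ n * (Q : ℂ) ^ n) ≤ 2) :
    ⨆ μ, End.eigenspace (Matrix.toLin' A) μ = ⊤ := by
  classical
  have hch := charP_res V ℓ hℓ hV
  have hFact : Fact ℓ.Prime := ⟨hℓ⟩
  set r := finrank F F' with hr
  have hQ0 : (Q : ℂ) ≠ 0 := by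
    have : Q ≠ 0 := by
      rintro rfl
      have := Nat.card_pos (α := F')
      rw [hQ] at this
      omega
    exact_mod_cast this
  have hQm : (Q : IsLocalRing.ResidueField V) = -1 := by
    have h3 : ((Q + 1 : ℕ) : IsLocalRing.ResidueField V) = 0 := (CharP.cast_eq_zero_iff _ ℓ _).2 hQℓ
    push_cast at h3
    exact eq_neg_of_add_eq_zero_left h3
  have hωV : ∀ a, ω a ∈ V := fun a => mem_of_integral V _ (hω a)
  have hωrV : ∀ a, ω a ^ r ∈ V := fun a => V.toSubring.pow_mem (hωV a) _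
  have hgω : ∀ a, gg V (ω a) ≠ 0 := fun a h => hnu a ((gg_eq_zero V (hωV a)).mp h)
  set R : Multiset ℂ := A.charpoly.roots with hR
  set T : Multiset (IsLocalRing.ResidueField V) :=
    (Finset.univ : Finset (Fin M)).val.map (fun a => gg V (ω a) ^ r) with hT
  have hRc : Multiset.card R = M := by rw [hR, LibTS.card_roots, Fintype.card_fin]
  have hTc : Multiset.card T = M := by rw [hT, Multiset.card_map]; simp
  obtain ⟨ch, hchF⟩ := CharP.exists F'
  have hchp : ch.Prime := (CharP.char_is_prime_or_zero F' ch).resolve_right (by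
    rintro rfl
    have : CharZero F' := CharP.charP_to_charZero F'
    exact not_finite F')
  have hchf : Fact ch.Prime := ⟨hchp⟩
  have hpow' : ∀ k : ℕ, 1 ≤ k → IsIntegral ℤ (R.map (fun r => r ^ k)).sum ∧
      (R.map (fun r => r ^ k)).sum ∈ V ∧
      gg V (R.map (fun r => r ^ k)).sum = (T.map (fun x => x ^ k)).sum := by
    intro k hk
    have : NeZero k := ⟨by omega⟩
    let E := FiniteField.Extension F' ch k
    let _ : Algebra F E := ((algebraMap F' E).comp (algebraMap F F')).toAlgebra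
    have : IsScalarTower F F' E := IsScalarTower.of_algebraMap_eq' rfl
    have hfin : finrank F' E = k := FiniteField.finrank_extension F' ch k
    have hfinF : finrank F E = r * k := by
      rw [← finrank_mul_finrank F F' E, hfin]
    have htr := hA E
    rw [hfin, trace_pow A k hk] at htr
    have hs := sum_cong V (c E)
      (fun x => ∏ j, χ j (Algebra.norm F' (val (g j : Γ(U, ⊤)) x.1))) (hc E) (fun x => by
        have := char_val V ℓ hℓ hV i
          (∏ j, χ j (Algebra.norm F' (val (g j : Γ(U, ⊤)) x.1))) (by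
            rw [← Finset.prod_pow]
            refine Finset.prod_eq_one fun j _ => ?_
            rw [← MulChar.pow_apply' _ (pow_ne_zero _ hℓ.ne_zero), hχ j]
            have hne : Algebra.norm F' (val (g j : Γ(U, ⊤)) x.1) ≠ 0 :=
              Algebra.norm_ne_zero_iff.mpr (val_unit_ne_zero (g j) x.1)
            exact MulChar.one_apply hne.isUnit)
        exact ⟨this.1, this.2.1, this.2.2.2⟩)
    have hterm : ∀ x : Pt p E, IsIntegral ℤ (c E x *
        ∏ j, χ j (Algebra.norm F' (val (g j : Γ(U, ⊤)) x.1))) := by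
      intro x
      refine (hc E x).mul ?_
      have := char_val V ℓ hℓ hV i
        (∏ j, χ j (Algebra.norm F' (val (g j : Γ(U, ⊤)) x.1))) (by
          rw [← Finset.prod_pow]
          refine Finset.prod_eq_one fun j _ => ?_
          rw [← MulChar.pow_apply' _ (pow_ne_zero _ hℓ.ne_zero), hχ j]
          have hne : Algebra.norm F' (val (g j : Γ(U, ⊤)) x.1) ≠ 0 :=
            Algebra.norm_ne_zero_iff.mpr (val_unit_ne_zero (g j) x.1)
          exact MulChar.one_apply hne.isUnit)
      exact this.2.1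
    have hsumint : IsIntegral ℤ (R.map (fun r => r ^ k)).sum := by
      rw [htr]
      exact finsum_induction (fun z => IsIntegral ℤ z) isIntegral_zero
        (fun x y hx hy => hx.add hy) hterm
    rw [← htr] at hs
    refine ⟨hsumint, hs.1, ?_⟩
    rw [hs.2.2, h0 E, hfinF]
    set W : Fin M → integralClosure ℤ ℂ := fun a => ⟨ω a, hω a⟩ with hW
    set Θ : Fin b → integralClosure ℤ ℂ := fun b => ⟨θ b, hθ b⟩ with hΘ
    have hz : (∑ a, ω a ^ (r * k) + ∑ b, (ε b : ℂ) * ((Nat.card E : ℂ) ^ e b - 1) * θ b ^ (r * k)) =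
        ((∑ a, W a ^ (r * k) + ∑ b, (ε b : integralClosure ℤ ℂ) *
          ((Nat.card E : integralClosure ℤ ℂ) ^ e b - 1) * Θ b ^ (r * k) :
          integralClosure ℤ ℂ) : ℂ) := by
      push_cast
      rfl
    rw [hz, ← rho_eq_gg, map_add, map_sum, map_sum]
    have hE1 : (Nat.card E : IsLocalRing.ResidueField V) = 1 := by
      have h1 : Nat.card E = Nat.card F' ^ k := FiniteField.natCard_extension F' ch k
      rw [h1, hQ]
      push_cast
      rw [hQm, neg_one_sq, one_pow]
    have hzero : ∑ b, rho V ((ε b : integralClosure ℤ ℂ) *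
          ((Nat.card E : integralClosure ℤ ℂ) ^ e b - 1) * Θ b ^ (r * k)) = 0 := by
      refine Finset.sum_eq_zero fun b _ => ?_
      rw [map_mul, map_mul, map_sub, map_pow, map_natCast, hE1, one_pow, map_one, sub_self,
        mul_zero, zero_mul]
    rw [hzero, add_zero, hT, Multiset.map_map]
    refine Finset.sum_congr rfl fun a _ => ?_
    simp only [Function.comp]
    rw [map_pow, rho_eq_gg, pow_mul]
  have hpow : ∀ k : ℕ, 1 ≤ k → (R.map (fun r => r ^ k)).sum ∈ V ∧
      gg V (R.map (fun r => r ^ k)).sum = (T.map (fun x => x ^ k)).sum := fun k hk => (hpow' k hk).2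
  have hint : ∀ k : ℕ, 0 < k → IsIntegral ℤ (R.map (fun r => r ^ k)).sum :=
    fun k hk => (hpow' k hk).1
  have hRV : ∀ r ∈ R, r ∈ V := fun r hr => mem_of_integral V r (integral_roots R (fun k hk => by
    have h3 := hint k hk
    exact h3) r hr)
  have hTcard : T.count 1 = Nat.card {a // ω a ^ r - 1 ∈ V.nonunits} := by
    rw [hT, Multiset.count_map, Nat.card_eq_fintype_card, Fintype.card_subtype]
    change (Finset.univ.filter fun a => 1 = gg V (ω a) ^ r).card = _
    congr 1
    refine Finset.filter_congr fun a _ => ?_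
    rw [← gg_eq_one (hωrV a), gg_pow V (hωV a), eq_comm]
  have hT1 : T.count 1 ≤ 3 := by rw [hTcard]; exact h2
  have hTv : ∀ v, v ≠ 1 → T.count v ≤ 1 := by
    intro v hv1
    by_contra h3
    push Not at h3
    rw [hT, Multiset.count_map] at h3
    have h4 : 1 < (Finset.univ.filter fun a => v = gg V (ω a) ^ r).card := h3
    obtain ⟨a, ha, a', ha', hne⟩ := Finset.one_lt_card.1 h4
    rw [Finset.mem_filter] at ha ha'
    have h5 : ω a ^ r - ω a' ^ r ∈ V.nonunits := by
      apply gg_eq_gg (hωrV a) (hωrV a')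
      rw [gg_pow V (hωV a), gg_pow V (hωV a'), ← ha.2, ← ha'.2]
    have h6 := h1 a a' hne h5
    rw [← gg_eq_one (hωrV a), gg_pow V (hωV a)] at h6
    exact hv1 (ha.2.trans h6)
  have hmap : R.map (gg V) = T := by
    have hℓ3 : 1 < ℓ := hℓ.one_lt
    have hps : ∀ k : ℕ, 1 ≤ k →
        ((R.map (gg V)).map (fun x => x ^ k)).sum = (T.map (fun x => x ^ k)).sum := by
      intro k hk
      rw [← (hpow k hk).2, (gg_sum V _ (by
        intro x hx
        obtain ⟨r, hr, rfl⟩ := Multiset.mem_map.mp hx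
        exact V.toSubring.pow_mem (hRV r hr) k)).1, Multiset.map_map, Multiset.map_map]
      congr 1
      refine Multiset.map_congr rfl fun r hr => ?_
      simp only [Function.comp]
      rw [gg_pow V (hRV r hr)]
    have hle : T ≤ R.map (gg V) := by
      rw [Multiset.le_iff_count]
      intro v
      by_cases hv : v = 0
      · subst hv
        rw [Multiset.count_eq_zero_of_notMem]
        · exact Nat.zero_le _
        · intro hm
          rw [hT, Multiset.mem_map] at hm
          obtain ⟨a, _, ha⟩ := hm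
          exact pow_ne_zero _ (hgω a) ha
      · have h3 := ps_count (R.map (gg V)) T hps v hv
        have h4 := (CharP.natCast_eq_natCast (IsLocalRing.ResidueField V) ℓ).1 h3
        have h5 : T.count v < ℓ := by
          by_cases hv1 : v = 1
          · rw [hv1, hTcard]
            exact h2'
          · exact lt_of_le_of_lt (hTv v hv1) hℓ3
        have h6 : (R.map (gg V)).count v % ℓ = T.count v := by
          rw [h4, Nat.mod_eq_of_lt h5]
        rw [← h6]
        exact Nat.mod_le _ _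
    exact (Multiset.eq_of_le_of_card_le hle (by rw [Multiset.card_map, hRc, hTc])).symm
  by_contra hcon
  obtain ⟨α, v, w, hv, hfv, hfw⟩ := exists_jordan _ hcon
  have hmult : ∀ γ : ℂ, finrank ℂ (End.maxGenEigenspace (Matrix.toLin' A) γ) = R.count γ := by
    intro γ
    rw [LinearMap.finrank_maxGenEigenspace_eq, Matrix.charpoly_toLin', hR, count_roots]
  have hα2 : 2 ≤ R.count α := by
    rw [← hmult]
    exact two_le _ hv hfv hfw
  have hαR : α ∈ R := Multiset.count_pos.1 (by omega)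
  -- the residue of `α` is one
  have hgα : gg V α = 1 := by
    by_contra hne
    have h3 : 2 ≤ T.count (gg V α) := by
      rw [← hmap]
      exact hα2.trans (count_le_map (gg V) R α)
    have h4 := hTv _ hne
    omega
  have hκ : (-1 : ℂ) ^ n / (Q : ℂ) ^ n ≠ 0 :=
    div_ne_zero (pow_ne_zero _ (by norm_num)) (pow_ne_zero _ hQ0)
  have hsq : ((-1 : ℂ) ^ n) ^ 2 = 1 := by rw [← pow_mul, mul_comm, pow_mul]; norm_num
  have hggQ : ∀ k : ℕ, gg V ((Q : ℂ) ^ k) = (-1) ^ k := by
    intro k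
    have h3 : ((Q : ℂ) ^ k) = (((Q : integralClosure ℤ ℂ) ^ k : integralClosure ℤ ℂ) : ℂ) := by
      push_cast
      rfl
    rw [h3, ← rho_eq_gg, map_pow, map_natCast, hQm]
  rcases bilin (Matrix.toLin' A) B hB hκ hAB hv hfv hfw with
    ⟨β, hne, hβ, hα0, hl1, hl2⟩ | hβ | ⟨hβ, hf3⟩
  · have hβ0 : β ≠ 0 := by
      rintro rfl
      rw [mul_zero] at hβ
      exact zero_ne_one hβ
    have hβ2 : 2 ≤ R.count β := by
      rw [hR, count_roots]
      exact dual_mult A B hB hα0 hβ0 hv hl1 hl2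
    have hβR : β ∈ R := Multiset.count_pos.1 (by omega)
    have hgβ : gg V β = 1 := by
      have h3 : α * β = (Q : ℂ) ^ (2 * n) := by
        rw [div_pow, hsq] at hβ
        have h4 : ((Q : ℂ) ^ n) ^ 2 ≠ 0 := pow_ne_zero _ (pow_ne_zero _ hQ0)
        field_simp at hβ
        rw [hβ]
        ring
      have h4 := gg_mul V (hRV α hαR) (hRV β hβR)
      rw [h3, hggQ, hgα, one_mul, pow_mul, neg_one_sq, one_pow] at h4
      exact h4.symm
    have h3 : α ::ₘ α ::ₘ β ::ₘ β ::ₘ 0 ≤ R := by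
      rw [Multiset.le_iff_count]
      intro z
      by_cases hz : z = α
      · subst hz
        rw [Multiset.count_cons_self, Multiset.count_cons_self,
          Multiset.count_cons_of_ne (Ne.symm hne), Multiset.count_cons_of_ne (Ne.symm hne),
          Multiset.count_zero]
        exact hα2
      · rw [Multiset.count_cons_of_ne hz, Multiset.count_cons_of_ne hz]
        by_cases hz' : z = β
        · subst hz'
          rw [Multiset.count_cons_self, Multiset.count_cons_self, Multiset.count_zero]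
          exact hβ2
        · rw [Multiset.count_cons_of_ne hz', Multiset.count_cons_of_ne hz', Multiset.count_zero]
          exact Nat.zero_le _
    have h4 := Multiset.count_le_of_le 1 (Multiset.map_le_map h3 (f := gg V))
    rw [hmap] at h4
    simp only [Multiset.map_cons, Multiset.map_zero, hgα, hgβ, Multiset.count_cons_self,
      Multiset.count_zero] at h4
    omega
  · have h3 : α = (-1) * ((-1) ^ n * (Q : ℂ) ^ n) := by
      have h5 : (Q : ℂ) ^ n ≠ 0 := pow_ne_zero _ hQ0
      have h6 : (-1 : ℂ) ^ n * ((-1) ^ n / (Q : ℂ) ^ n * α) * (Q : ℂ) ^ n = α := by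
        have : (-1 : ℂ) ^ n * ((-1) ^ n / (Q : ℂ) ^ n * α) * (Q : ℂ) ^ n =
          ((-1 : ℂ) ^ n) ^ 2 * α * ((Q : ℂ) ^ n / (Q : ℂ) ^ n) := by ring
        rw [this, hsq, div_self h5]
        ring
      rw [← h6, hβ]
      ring
    have h4 : α = (((-1 : integralClosure ℤ ℂ) * ((-1) ^ n * (Q : integralClosure ℤ ℂ) ^ n) :
        integralClosure ℤ ℂ) : ℂ) := by
      rw [h3]
      push_cast
      rfl
    have h5 : gg V α = -1 := by
      rw [h4, ← rho_eq_gg, map_mul, map_mul, map_pow, map_pow, map_neg, map_one, map_natCast, hQm,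
        ← mul_pow]
      norm_num
    rw [hgα] at h5
    have h6 : ((2 : ℕ) : IsLocalRing.ResidueField V) = 0 := by
      push_cast
      linear_combination h5
    have h7 := (CharP.cast_eq_zero_iff _ ℓ _).1 h6
    have h8 := (Nat.prime_dvd_prime_iff_eq hℓ Nat.prime_two).1 h7
    exact hℓ2 h8
  · have h4 : α = (-1) ^ n * (Q : ℂ) ^ n := by
      have h5 : (Q : ℂ) ^ n ≠ 0 := pow_ne_zero _ hQ0
      have h6 : (-1 : ℂ) ^ n * ((-1) ^ n / (Q : ℂ) ^ n * α) * (Q : ℂ) ^ n = α := by
        have : (-1 : ℂ) ^ n * ((-1) ^ n / (Q : ℂ) ^ n * α) * (Q : ℂ) ^ n =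
          ((-1 : ℂ) ^ n) ^ 2 * α * ((Q : ℂ) ^ n / (Q : ℂ) ^ n) := by ring
        rw [this, hsq, div_self h5]
        ring
      rw [← h6, hβ]
      ring
    rw [hmult, hR, count_roots, h4] at hf3
    omega

end Pool.Agent.LibBT64
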